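import Pool.Agent.Helper11.CE.Glob

/-!
# All large exponents are good, with a bound depending on the clique number only
-/

open Finset

namespace Pool.Agent.Helper11.CE

open Pool.Agent.Helper71.CE

variable {V : Type*} [Fintype V] [DecidableEq V]

theorem psd_diag (z : V → ℝ) (hz : ∀ i, 0 ≤ z i) : Psd (fun i j => if i = j then z i else 0) := by
  refine ⟨fun i j => ?_, fun x => ?_⟩
  · by_cases h : i = j
    · subst h; rfl
    · show (if i = j then z i else 0) = if j = i then z j else 0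
      rw [if_neg h, if_neg fun e => h e.symm]
  · have e : qf (fun i j => if i = j then z i else 0) x = ∑ i, z i * x i ^ 2 := by
      simp only [qf]
      refine Finset.sum_congr rfl fun i _ => ?_
      rw [Finset.sum_eq_single i]
      · rw [if_pos rfl]; ring
      · intro j _ hj
        rw [if_neg fun e => hj e.symm, mul_zero, zero_mul]
      · simp
    rw [e]
    exact Finset.sum_nonneg fun i _ => mul_nonneg (hz i) (sq_nonneg _)

/-- reduction to unit diagonal -/
theorem main_pattern {G : SimpleGraph V} {A : V → V → ℝ} (hA : InPG G A) {r m : ℕ} (hr : 1 ≤ r)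
    (hG : G.CliqueFree (r + 1)) (hm : 2 * r ≤ m)
    (hm2 : (r : ℝ) ^ 2 * (1 - 1 / (r : ℝ) ^ 2) ^ (m - 2 * r) ≤ 1) {t : ℝ}
    (ht : (r : ℝ) ^ 2 * m + 2 * r - 2 ≤ t) : Psd (hpow A t) := by
  obtain ⟨hP, hA0, hpat⟩ := hA
  set e : V → ℝ := fun i => if A i i = 0 then 0 else 1 / √(A i i) with he
  set z : V → ℝ := fun i => if A i i = 0 then 1 else 0 with hz
  set N : V → V → ℝ := fun i j => e i * e j * A i j + (if i = j then z i else 0) with hNdef
  have he0 : ∀ i, 0 ≤ e i := by
    intro i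
    simp only [he]
    split_ifs
    · exact le_rfl
    · positivity
  have hz0 : ∀ i, 0 ≤ z i := by
    intro i
    simp only [hz]
    split_ifs <;> norm_num
  have hN : Psd N := ((psd_rankOne e).hadamard hP).add (psd_diag z hz0)
  have h1 : ∀ i, N i i = 1 := by
    intro i
    simp only [hNdef, he, hz]
    by_cases h : A i i = 0
    · simp [h]
    · have hpos : 0 < A i i := lt_of_le_of_ne (hA0 i i) (Ne.symm h)
      have hs : √(A i i) ≠ 0 := (Real.sqrt_pos.2 hpos).ne'
      have hss : √(A i i) * √(A i i) = A i i := Real.mul_self_sqrt hpos.le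
      rw [if_neg h, if_neg h]
      simp only [ite_self, add_zero]
      have e3 : 1 / √(A i i) * (1 / √(A i i)) * A i i = A i i / (√(A i i) * √(A i i)) := by
        field_simp
      rw [e3, hss, div_self h]
  have h0 : ∀ i j, 0 ≤ N i j := by
    intro i j
    refine add_nonneg (mul_nonneg (mul_nonneg (he0 i) (he0 j)) (hA0 i j)) ?_
    split_ifs
    · exact hz0 i
    · exact le_rfl
  have hpatN : ∀ i j, i ≠ j → ¬ G.Adj i j → N i j = 0 := by
    intro i j hij hadj
    simp only [hNdef]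
    rw [hpat i j hij hadj, if_neg hij, mul_zero, add_zero]
  have hmain := main_norm hN h1 h0 hpatN hr hG hm hm2 ht
  have hAz : ∀ i j, A i i = 0 → A i j = 0 := by
    intro i j h
    have := hP.minor i j
    rw [h, zero_mul] at this
    exact pow_eq_zero_iff (two_ne_zero) |>.1 (le_antisymm this (sq_nonneg _))
  have hfac : ∀ i j, A i j = (√(A i i) * √(A j j)) * N i j := by
    intro i j
    by_cases hi : A i i = 0
    · rw [hAz i j hi, hi, Real.sqrt_zero, zero_mul, zero_mul]
    by_cases hj : A j j = 0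
    · rw [hP.1 i j, hAz j i hj, hj, Real.sqrt_zero, mul_zero, zero_mul]
    have hip : 0 < √(A i i) := Real.sqrt_pos.2 (lt_of_le_of_ne (hA0 i i) (Ne.symm hi))
    have hjp : 0 < √(A j j) := Real.sqrt_pos.2 (lt_of_le_of_ne (hA0 j j) (Ne.symm hj))
    have hzi : (if i = j then z i else 0) = 0 := by
      split_ifs
      · simp only [hz]; rw [if_neg hi]
      · rfl
    simp only [hNdef]
    rw [hzi, add_zero]
    simp only [he]
    rw [if_neg hi, if_neg hj]
    field_simp
  have e2 : hpow A t = fun i j => (pw t √(A i i) * pw t √(A j j)) * hpow N t i j := by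
    funext i j
    simp only [hpow]
    rw [← pw_mul (Real.sqrt_nonneg _) (Real.sqrt_nonneg _),
      ← pw_mul (mul_nonneg (Real.sqrt_nonneg _) (Real.sqrt_nonneg _)) (h0 i j), ← hfac]
  rw [e2]
  exact (psd_rankOne (fun i => pw t √(A i i))).hadamard hmain

/-- the bound, as a function of the clique number -/
noncomputable def bound (x : ℝ) : ℝ := 2 * x ^ 4 * Real.log x + 2 * x ^ 3 + x ^ 2 + 2 * x - 2

theorem good_of_bound {G : SimpleGraph V} {A : V → V → ℝ} (hA : InPG G A) {r : ℕ} (hr : 1 ≤ r)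
    (hG : G.CliqueFree (r + 1)) {t : ℝ} (ht : bound r ≤ t) : Psd (hpow A t) := by
  have hr0 : (1 : ℝ) ≤ r := by exact_mod_cast hr
  have hlog : 0 ≤ Real.log r := Real.log_nonneg hr0
  have hr2 : (0 : ℝ) < (r : ℝ) ^ 2 := by positivity
  set m : ℕ := ⌈2 * (r : ℝ) + 2 * (r : ℝ) ^ 2 * Real.log r⌉₊ with hm
  have hm1 : 2 * (r : ℝ) + 2 * (r : ℝ) ^ 2 * Real.log r ≤ m := Nat.le_ceil _
  have hm3 : (m : ℝ) < 2 * (r : ℝ) + 2 * (r : ℝ) ^ 2 * Real.log r + 1 :=
    Nat.ceil_lt_add_one (by positivity)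
  have hm0 : 2 * r ≤ m := by
    have h : 0 ≤ 2 * (r : ℝ) ^ 2 * Real.log r := by positivity
    have : ((2 * r : ℕ) : ℝ) ≤ m := by push_cast; linarith
    exact_mod_cast this
  refine main_pattern hA hr hG hm0 ?_ (t := t) ?_
  · have hb : 1 - 1 / (r : ℝ) ^ 2 ≤ Real.exp (-(1 / (r : ℝ) ^ 2)) := by
      have := Real.add_one_le_exp (-(1 / (r : ℝ) ^ 2))
      linarith
    have hb0 : 0 ≤ 1 - 1 / (r : ℝ) ^ 2 := by
      have : (1 : ℝ) ≤ (r : ℝ) ^ 2 := one_le_pow₀ hr0
      rw [sub_nonneg, div_le_one (by positivity)]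
      exact this
    have hk : 2 * (r : ℝ) ^ 2 * Real.log r ≤ ((m - 2 * r : ℕ) : ℝ) := by
      rw [Nat.cast_sub hm0]
      push_cast
      linarith
    calc (r : ℝ) ^ 2 * (1 - 1 / (r : ℝ) ^ 2) ^ (m - 2 * r) ≤
          (r : ℝ) ^ 2 * Real.exp (-(1 / (r : ℝ) ^ 2)) ^ (m - 2 * r) :=
          mul_le_mul_of_nonneg_left (pow_le_pow_left₀ hb0 hb _) hr2.le
      _ = (r : ℝ) ^ 2 * Real.exp (((m - 2 * r : ℕ) : ℝ) * (-(1 / (r : ℝ) ^ 2))) := by
          rw [← Real.exp_nat_mul]
      _ ≤ (r : ℝ) ^ 2 * Real.exp (-(2 * Real.log r)) := by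
          refine mul_le_mul_of_nonneg_left (Real.exp_le_exp.2 ?_) hr2.le
          have : 2 * Real.log r ≤ ((m - 2 * r : ℕ) : ℝ) * (1 / (r : ℝ) ^ 2) := by
            rw [mul_one_div, le_div_iff₀ hr2]
            linarith
          linarith
      _ = 1 := by
          rw [Real.exp_neg, two_mul, Real.exp_add, Real.exp_log (by linarith)]
          field_simp
  · have h : (r : ℝ) ^ 2 * m ≤
        (r : ℝ) ^ 2 * (2 * (r : ℝ) + 2 * (r : ℝ) ^ 2 * Real.log r + 1) :=
      mul_le_mul_of_nonneg_left hm3.le hr2.le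
    unfold bound at ht
    nlinarith

theorem bound_mono {x y : ℝ} (hx : 1 ≤ x) (hxy : x ≤ y) : bound x ≤ bound y := by
  have hy : 1 ≤ y := hx.trans hxy
  have hlx : 0 ≤ Real.log x := Real.log_nonneg hx
  have h1 : Real.log x ≤ Real.log y := Real.log_le_log (by linarith) hxy
  have h4 : x ^ 4 ≤ y ^ 4 := pow_le_pow_left₀ (by linarith) hxy 4
  have h3 : x ^ 3 ≤ y ^ 3 := pow_le_pow_left₀ (by linarith) hxy 3
  have h2 : x ^ 2 ≤ y ^ 2 := pow_le_pow_left₀ (by linarith) hxy 2
  have h5 : x ^ 4 * Real.log x ≤ y ^ 4 * Real.log y :=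
    mul_le_mul h4 h1 hlx (by positivity)
  unfold bound
  nlinarith

end Pool.Agent.Helper11.CE
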