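import Pool.Agent.Helper71.CE.Dec

/-!
# Gram vectors: the sum bound and the clusters of a matrix whose pattern has small cliques
-/

open Finset

namespace Pool.Agent.Helper11.CE

open Pool.Agent.Helper71.CE

variable {V : Type*} [Fintype V] [DecidableEq V] {N : V → V → ℝ}

open scoped MatrixOrder Matrix.Norms.L2Operator in
theorem exists_gram (hN : Psd N) :
    ∃ u : V → EuclideanSpace ℝ V, ∀ i j, inner ℝ (u i) (u j) = N i j := by
  obtain ⟨B, hB⟩ := CStarAlgebra.nonneg_iff_eq_star_mul_self.mp ((psd_iff N).1 hN).nonneg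
  refine ⟨fun i => WithLp.toLp 2 (fun k => B k i), fun i j => ?_⟩
  have h := congrFun (congrFun hB i) j
  rw [Matrix.mul_apply] at h
  have h2 : N i j = ∑ k, B k i * B k j := by
    simpa [Matrix.star_apply] using h
  rw [h2, PiLp.inner_apply]
  refine Finset.sum_congr rfl fun k _ => ?_
  simp [mul_comm]

/-- the greedy step of the sum bound -/
theorem greedy {G : SimpleGraph V} (a : V → ℝ) (ha : ∀ k, a k ^ 2 ≤ 1) (r : ℕ)
    (ih : ∀ F : Finset V, G.CliqueFreeOn (F : Set V) (r + 1) → ∑ k ∈ F, a k ^ (2 * r) ≤ r) :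
    ∀ F : Finset V, G.CliqueFreeOn (F : Set V) (r + 1 + 1) →
      ∃ I ⊆ F, (∀ i ∈ I, ∀ j ∈ I, i ≠ j → ¬ G.Adj i j) ∧
        ∑ k ∈ F, a k ^ (2 * (r + 1)) ≤ (r + 1) * ∑ i ∈ I, a i ^ 2 := by
  classical
  intro F
  induction F using Finset.strongInduction with
  | H F hF =>
    intro hfree
    rcases F.eq_empty_or_nonempty with h | h
    · subst h
      exact ⟨∅, Finset.Subset.refl _, by simp, by simp⟩
    obtain ⟨i, hi, hmax⟩ := Finset.exists_max_image F (fun k => a k ^ 2) h
    set Nb := F.filter (fun k => G.Adj i k) with hNb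
    set F' := F.filter (fun k => k ≠ i ∧ ¬ G.Adj i k) with hF'
    have hsub : F' ⊂ F := by
      refine (Finset.ssubset_iff_subset_ne).2 ⟨Finset.filter_subset _ _, fun e => ?_⟩
      have : i ∈ F' := by rw [e]; exact hi
      exact (Finset.mem_filter.1 this).2.1 rfl
    have hfree' : G.CliqueFreeOn (F' : Set V) (r + 1 + 1) := by
      intro t ht
      exact hfree (ht.trans (by
        intro x hx
        exact Finset.mem_coe.2 (Finset.filter_subset _ _ (Finset.mem_coe.1 hx))))
    obtain ⟨I, hIF, hI, hsum⟩ := hF F' hsub hfree'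
    have hiI : i ∉ I := fun h' => (Finset.mem_filter.1 (hIF h')).2.1 rfl
    have hNbfree : G.CliqueFreeOn (Nb : Set V) (r + 1) := by
      intro t ht hc
      refine hfree (t := insert i t) ?_ (hc.insert ?_)
      · intro x hx
        rw [Finset.coe_insert] at hx
        rcases hx with rfl | hx
        · exact Finset.mem_coe.2 hi
        · exact Finset.mem_coe.2 (Finset.filter_subset _ _ (Finset.mem_coe.1 (ht hx)))
      · intro b hb
        exact (Finset.mem_filter.1 (Finset.mem_coe.1 (ht (Finset.mem_coe.2 hb)))).2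
    have hNbsum := ih Nb hNbfree
    refine ⟨insert i I, ?_, ?_, ?_⟩
    · intro x hx
      rcases Finset.mem_insert.1 hx with rfl | hx
      · exact hi
      · exact Finset.filter_subset _ _ (hIF hx)
    · intro x hx y hy hxy hadj
      rcases Finset.mem_insert.1 hx with hx' | hx'
      · rcases Finset.mem_insert.1 hy with hy' | hy'
        · exact hxy (hx'.trans hy'.symm)
        · rw [hx'] at hadj
          exact (Finset.mem_filter.1 (hIF hy')).2.2 hadj
      · rcases Finset.mem_insert.1 hy with hy' | hy'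
        · rw [hy'] at hadj
          exact (Finset.mem_filter.1 (hIF hx')).2.2 hadj.symm
        · exact hI x hx' y hy' hxy hadj
    · rw [Finset.sum_insert hiI]
      have hsplit : ∑ k ∈ F, a k ^ (2 * (r + 1)) = a i ^ (2 * (r + 1)) +
          ∑ k ∈ Nb, a k ^ (2 * (r + 1)) + ∑ k ∈ F', a k ^ (2 * (r + 1)) := by
        have e1 : F = insert i (Nb ∪ F') := by
          ext x
          simp only [hNb, hF', Finset.mem_insert, Finset.mem_union, Finset.mem_filter]
          constructor
          · intro hx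
            by_cases hxi : x = i
            · exact Or.inl hxi
            · by_cases hax : G.Adj i x
              · exact Or.inr (Or.inl ⟨hx, hax⟩)
              · exact Or.inr (Or.inr ⟨hx, hxi, hax⟩)
          · rintro (rfl | hx | hx)
            · exact hi
            · exact hx.1
            · exact hx.1
        have hd : Disjoint Nb F' := by
          rw [Finset.disjoint_left]
          intro x hx hx'
          exact (Finset.mem_filter.1 hx').2.2 (Finset.mem_filter.1 hx).2
        have hni : i ∉ Nb ∪ F' := by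
          intro hx
          rcases Finset.mem_union.1 hx with hx | hx
          · exact G.loopless.irrefl i (Finset.mem_filter.1 hx).2
          · exact (Finset.mem_filter.1 hx).2.1 rfl
        conv_lhs => rw [e1]
        rw [Finset.sum_insert hni, Finset.sum_union hd]
        ring
      rw [hsplit]
      have hpow : ∀ k, a k ^ (2 * (r + 1)) = a k ^ 2 * a k ^ (2 * r) := fun k => by
        rw [← pow_add]; congr 1; ring
      have hev : ∀ k, 0 ≤ a k ^ (2 * r) := fun k => by
        rw [pow_mul]; exact pow_nonneg (sq_nonneg _) _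
      have h1 : a i ^ (2 * (r + 1)) ≤ a i ^ 2 := by
        rw [hpow]
        have : a i ^ (2 * r) ≤ 1 := by
          rw [pow_mul]; exact pow_le_one₀ (sq_nonneg _) (ha i)
        nlinarith [sq_nonneg (a i)]
      have h2 : ∑ k ∈ Nb, a k ^ (2 * (r + 1)) ≤ a i ^ 2 * r := by
        calc ∑ k ∈ Nb, a k ^ (2 * (r + 1)) ≤ ∑ k ∈ Nb, a i ^ 2 * a k ^ (2 * r) := by
              refine Finset.sum_le_sum fun k hk => ?_
              rw [hpow]
              exact mul_le_mul_of_nonneg_right (hmax k (Finset.filter_subset _ _ hk)) (hev k)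
          _ = a i ^ 2 * ∑ k ∈ Nb, a k ^ (2 * r) := by rw [Finset.mul_sum]
          _ ≤ a i ^ 2 * r := mul_le_mul_of_nonneg_left hNbsum (sq_nonneg _)
      nlinarith

/-- Bessel for an independent set of Gram vectors -/
theorem bessel {G : SimpleGraph V} {u : V → EuclideanSpace ℝ V}
    (hu : ∀ i j, inner ℝ (u i) (u j) = N i j) (h1 : ∀ i, N i i = 1)
    (hpat : ∀ i j, i ≠ j → ¬ G.Adj i j → N i j = 0) (x : EuclideanSpace ℝ V) (hx : ‖x‖ ≤ 1)
    (I : Finset V) (hI : ∀ i ∈ I, ∀ j ∈ I, i ≠ j → ¬ G.Adj i j) :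
    ∑ i ∈ I, (inner ℝ (u i) x) ^ 2 ≤ 1 := by
  have ho : Orthonormal ℝ (fun i : ↥I => u i) := by
    rw [orthonormal_iff_ite]
    intro i j
    rw [hu]
    by_cases h : i = j
    · subst h; rw [h1, if_pos rfl]
    · rw [if_neg h]
      have hij : (i : V) ≠ j := fun e => h (Subtype.ext e)
      exact hpat _ _ hij (hI i i.2 j j.2 hij)
  have hb := ho.sum_inner_products_le (x := x) (s := Finset.univ)
  have e : ∑ i : ↥I, ‖inner ℝ (u i) x‖ ^ 2 = ∑ i ∈ I, (inner ℝ (u i) x) ^ 2 := by
    rw [← Finset.sum_coe_sort I]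
    refine Finset.sum_congr rfl fun i _ => ?_
    rw [Real.norm_eq_abs, sq_abs]
  rw [e] at hb
  have : ‖x‖ ^ 2 ≤ 1 := pow_le_one₀ (norm_nonneg _) hx
  linarith

theorem sum_bound {G : SimpleGraph V} {u : V → EuclideanSpace ℝ V}
    (hu : ∀ i j, inner ℝ (u i) (u j) = N i j) (h1 : ∀ i, N i i = 1)
    (hpat : ∀ i j, i ≠ j → ¬ G.Adj i j → N i j = 0) (x : EuclideanSpace ℝ V) (hx : ‖x‖ ≤ 1)
    (r : ℕ) : ∀ F : Finset V, G.CliqueFreeOn (F : Set V) (r + 1) →
      ∑ k ∈ F, (inner ℝ (u k) x) ^ (2 * r) ≤ r := by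
  have ha : ∀ k, (inner ℝ (u k) x) ^ 2 ≤ 1 := by
    intro k
    have := bessel hu h1 hpat x hx {k} (by
      intro i hi j hj hij
      rw [Finset.mem_singleton] at hi hj
      exact absurd (hi.trans hj.symm) hij)
    rw [Finset.sum_singleton] at this
    exact this
  induction r with
  | zero =>
    intro F hF
    have : F = ∅ := by
      rw [Finset.eq_empty_iff_forall_notMem]
      intro i hi
      refine hF (t := {i}) ?_ ?_
      · intro x hx
        rw [Finset.coe_singleton, Set.mem_singleton_iff] at hx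
        rw [hx]; exact Finset.mem_coe.2 hi
      · rw [SimpleGraph.isNClique_iff]
        refine ⟨?_, by simp⟩
        rw [Finset.coe_singleton]
        exact Set.pairwise_singleton _ _
    subst this
    simp
  | succ r ih =>
    intro F hF
    obtain ⟨I, _, hI, hs⟩ := greedy (fun k => inner ℝ (u k) x) ha r ih F hF
    have hb := bessel hu h1 hpat x hx I hI
    push_cast
    calc ∑ k ∈ F, (inner ℝ (u k) x) ^ (2 * (r + 1)) ≤
          (r + 1) * ∑ i ∈ I, (inner ℝ (u i) x) ^ 2 := hs
      _ ≤ (r + 1) * 1 := mul_le_mul_of_nonneg_left hb (by positivity)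
      _ = _ := by ring

/-- the row sums of high powers away from the large entries -/
theorem row_bound {G : SimpleGraph V} (hN : Psd N) (h1 : ∀ i, N i i = 1) (h0 : ∀ i j, 0 ≤ N i j)
    (hpat : ∀ i j, i ≠ j → ¬ G.Adj i j → N i j = 0) {r m : ℕ} (hG : G.CliqueFree (r + 1))
    (hm : 2 * r ≤ m) {β : ℝ} (hβ : 0 ≤ β) (j : V) (F : Finset V) (hF : ∀ k ∈ F, N j k ≤ β) :
    ∑ k ∈ F, N j k ^ m ≤ r * β ^ (m - 2 * r) := by
  obtain ⟨u, hu⟩ := exists_gram hN
  have hx : ‖u j‖ ≤ 1 := by
    have : ‖u j‖ ^ 2 = 1 := by rw [← real_inner_self_eq_norm_sq, hu, h1]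
    nlinarith [norm_nonneg (u j)]
  have hs := sum_bound hu h1 hpat (u j) hx r F (by
    intro t _
    exact hG t)
  have e : ∀ k, inner ℝ (u k) (u j) = N j k := fun k => by rw [hu, hN.1]
  simp only [e] at hs
  calc ∑ k ∈ F, N j k ^ m ≤ ∑ k ∈ F, β ^ (m - 2 * r) * N j k ^ (2 * r) := by
        refine Finset.sum_le_sum fun k hk => ?_
        have : N j k ^ m = N j k ^ (m - 2 * r) * N j k ^ (2 * r) := by
          rw [← pow_add]; congr 1; omega
        rw [this]
        exact mul_le_mul_of_nonneg_right (pow_le_pow_left₀ (h0 j k) (hF k hk) _)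
          (pow_nonneg (h0 j k) _)
    _ = β ^ (m - 2 * r) * ∑ k ∈ F, N j k ^ (2 * r) := by rw [Finset.mul_sum]
    _ ≤ β ^ (m - 2 * r) * r := mul_le_mul_of_nonneg_left hs (pow_nonneg hβ _)
    _ = _ := mul_comm _ _

end Pool.Agent.Helper11.CE
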