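import Pool.Agent.Helper11.CE.Cluster

/-!
# Clusters: chains of large entries have at most `r` vertices
-/

open Finset

namespace Pool.Agent.Helper11.CE

open Pool.Agent.Helper71.CE

universe w

variable {V : Type w} [Fintype V] [DecidableEq V] {N : V → V → ℝ}

omit [Fintype V] [DecidableEq V] in
theorem exists_step {R : V → V → Prop} (U : Finset V) {i j : V} (h : Relation.ReflTransGen R i j)
    (hi : i ∈ U) (hj : j ∉ U) : ∃ a b, a ∈ U ∧ b ∉ U ∧ R a b ∧ Relation.ReflTransGen R i b := by
  induction h with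
  | refl => exact absurd hi hj
  | @tail b c hab hbc ih =>
    by_cases hb : b ∈ U
    · exact ⟨b, c, hb, hj, hbc, hab.tail hbc⟩
    · exact ih hb

omit [Fintype V] [DecidableEq V] in
theorem rtg_symm {R : V → V → Prop} (hs : ∀ a b, R a b → R b a) {i j : V}
    (h : Relation.ReflTransGen R i j) : Relation.ReflTransGen R j i := by
  induction h with
  | refl => exact Relation.ReflTransGen.refl
  | tail _ hbc ih => exact Relation.ReflTransGen.head (hs _ _ hbc) ih

theorem grow {u : V → EuclideanSpace ℝ V} {R : V → V → Prop} {δ : ℝ} (hδ : 0 ≤ δ)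
    (hR : ∀ a b, R a b → ‖u a - u b‖ < δ) (i : V) (K : Finset V)
    (hK : ∀ j, j ∈ K ↔ Relation.ReflTransGen R i j) (k : ℕ) (hk : k + 1 ≤ K.card) :
    ∃ U ⊆ K, U.card = k + 1 ∧ i ∈ U ∧ ∀ a ∈ U, ∀ b ∈ U, a ≠ b → ‖u a - u b‖ < k * δ := by
  induction k with
  | zero =>
    refine ⟨{i}, ?_, by simp, by simp, ?_⟩
    · intro x hx
      rw [Finset.mem_singleton] at hx
      rw [hx, hK]
    · intro a ha b hb hab
      rw [Finset.mem_singleton] at ha hb
      exact absurd (ha.trans hb.symm) hab
  | succ k ih =>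
    obtain ⟨U, hUK, hUc, hiU, hU⟩ := ih (by omega)
    have hne : ∃ j ∈ K, j ∉ U := by
      by_contra h
      push Not at h
      have := Finset.card_le_card (fun x hx => h x hx : K ⊆ U)
      omega
    obtain ⟨j, hjK, hjU⟩ := hne
    obtain ⟨a, b, haU, hbU, hab, hib⟩ := exists_step U ((hK j).1 hjK) hiU hjU
    have hstep : ∀ x ∈ U, ‖u x - u b‖ < ((k + 1 : ℕ) : ℝ) * δ := by
      intro x hx
      have h2 := hR a b hab
      by_cases hxa : x = a
      · rw [hxa]
        refine h2.trans_le ?_
        push_cast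
        nlinarith [mul_nonneg (Nat.cast_nonneg (α := ℝ) k) hδ]
      · have h1 := hU x hx a haU hxa
        have h3 : ‖u x - u b‖ ≤ ‖u x - u a‖ + ‖u a - u b‖ := by
          have : u x - u b = (u x - u a) + (u a - u b) := by abel
          rw [this]; exact norm_add_le _ _
        push_cast
        linarith
    refine ⟨insert b U, ?_, ?_, Finset.mem_insert_of_mem hiU, ?_⟩
    · intro x hx
      rcases Finset.mem_insert.1 hx with hx | hx
      · rw [hx, hK]; exact hib
      · exact hUK hx
    · rw [Finset.card_insert_of_notMem hbU, hUc]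
    · intro x hx y hy hxy
      rcases Finset.mem_insert.1 hx with hx' | hx'
      · rcases Finset.mem_insert.1 hy with hy' | hy'
        · exact absurd (hx'.trans hy'.symm) hxy
        · rw [hx', norm_sub_rev]
          exact hstep y hy'
      · rcases Finset.mem_insert.1 hy with hy' | hy'
        · rw [hy']
          exact hstep x hx'
        · have h1 := hU x hx' y hy' hxy
          have : (k : ℝ) * δ ≤ ((k + 1 : ℕ) : ℝ) * δ :=
            mul_le_mul_of_nonneg_right (by push_cast; linarith) hδ
          linarith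

theorem exists_clusters {G : SimpleGraph V} (hN : Psd N) (h1 : ∀ i, N i i = 1)
    (hpat : ∀ i j, i ≠ j → ¬ G.Adj i j → N i j = 0) {r : ℕ} (hr : 1 ≤ r)
    (hG : G.CliqueFree (r + 1)) :
    ∃ (Q : Type w) (_ : Fintype Q) (_ : DecidableEq Q) (c : V → Q),
      (∀ i j, c i ≠ c j → N i j ≤ 1 - 1 / (r : ℝ) ^ 2) ∧
      ∀ q, (Finset.univ.filter fun i => c i = q).card ≤ r := by
  classical
  obtain ⟨u, hu⟩ := exists_gram hN
  let R : V → V → Prop := fun i j => 1 - 1 / (r : ℝ) ^ 2 < N i j
  have hsymm : ∀ a b, R a b → R b a := fun a b h => by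
    show 1 - 1 / (r : ℝ) ^ 2 < N b a
    rw [hN.1 b a]; exact h
  let S : Setoid V :=
    { r := Relation.ReflTransGen R
      iseqv := ⟨fun _ => Relation.ReflTransGen.refl,
        fun h => rtg_symm hsymm h,
        fun h h' => h.trans h'⟩ }
  have hr0 : (0 : ℝ) < r := by exact_mod_cast hr
  have hnorm : ∀ a b, ‖u a - u b‖ ^ 2 = 2 - 2 * N a b := by
    intro a b
    rw [← real_inner_self_eq_norm_sq, inner_sub_left, inner_sub_right, inner_sub_right, hu, hu, hu,
      hu, h1, h1, hN.1 b a]
    ring
  set δ : ℝ := √2 / r with hδ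
  have hδ0 : 0 ≤ δ := by positivity
  have h2 : √2 ^ 2 = (2 : ℝ) := Real.sq_sqrt (by norm_num)
  have hR : ∀ a b, R a b → ‖u a - u b‖ < δ := by
    intro a b hab
    have h3 : ‖u a - u b‖ ^ 2 < δ ^ 2 := by
      rw [hnorm, hδ, div_pow, h2]
      have : 1 - 1 / (r : ℝ) ^ 2 < N a b := hab
      have e : 2 / (r : ℝ) ^ 2 = 2 * (1 / (r : ℝ) ^ 2) := by ring
      rw [e]
      linarith
    exact lt_of_pow_lt_pow_left₀ 2 hδ0 h3
  refine ⟨Quotient S, inferInstance, inferInstance, fun i => Quotient.mk S i, ?_, ?_⟩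
  · intro i j hij
    by_contra h
    push Not at h
    exact hij (Quotient.sound (Relation.ReflTransGen.single h))
  · intro q
    by_contra h
    push Not at h
    obtain ⟨i, hi⟩ : (Finset.univ.filter fun i => Quotient.mk S i = q).Nonempty := by
      rw [← Finset.card_pos]; omega
    have hi' : Quotient.mk S i = q := (Finset.mem_filter.1 hi).2
    obtain ⟨U, hUK, hUc, _, hU⟩ := grow hδ0 hR i
      (Finset.univ.filter fun i => Quotient.mk S i = q) (by
        intro j
        rw [Finset.mem_filter]
        constructor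
        · rintro ⟨_, hj⟩
          exact Quotient.exact (hi'.trans hj.symm)
        · intro hj
          refine ⟨Finset.mem_univ _, ?_⟩
          rw [← hi']
          exact (Quotient.sound hj).symm) r (by omega)
    refine hG U ?_
    rw [SimpleGraph.isNClique_iff]
    refine ⟨?_, hUc⟩
    intro a ha b hb hab
    by_contra hnadj
    have h3 := hU a (Finset.mem_coe.1 ha) b (Finset.mem_coe.1 hb) hab
    have h4 : (r : ℝ) * δ = √2 := by
      rw [hδ]; field_simp
    rw [h4] at h3
    have h5 : ‖u a - u b‖ ^ 2 < √2 ^ 2 := pow_lt_pow_left₀ h3 (norm_nonneg _) two_ne_zero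
    rw [hnorm, h2, hpat a b hab hnadj] at h5
    linarith

end Pool.Agent.Helper11.CE
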