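import Pool.Agent.Helper71.CE.FH

/-!
# Quadratic forms, Schur products and comparison of forms
-/

open Finset

namespace Pool.Agent.Helper11.CE

open Pool.Agent.Helper71.CE

variable {V : Type*} [Fintype V]

/-- bilinear form -/
def bf (B : V → V → ℝ) (z w : V → ℝ) : ℝ := ∑ i, ∑ j, z i * B i j * w j

theorem bf_symm {B : V → V → ℝ} (hs : ∀ i j, B i j = B j i) (z w : V → ℝ) :
    bf B z w = bf B w z := by
  simp only [bf]
  rw [Finset.sum_comm]
  refine Finset.sum_congr rfl fun i _ => Finset.sum_congr rfl fun j _ => ?_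
  rw [hs j i]; ring

theorem qf_add_smul {B : V → V → ℝ} (hs : ∀ i j, B i j = B j i) (z w : V → ℝ) (s : ℝ) :
    qf B (fun i => z i + s * w i) = qf B z + 2 * s * bf B z w + s ^ 2 * qf B w := by
  have h1 : qf B (fun i => z i + s * w i) =
      qf B z + s * bf B z w + s * bf B w z + s ^ 2 * qf B w := by
    simp only [qf, bf, Finset.mul_sum, ← Finset.sum_add_distrib]
    refine Finset.sum_congr rfl fun i _ => Finset.sum_congr rfl fun j _ => by ring
  rw [h1, bf_symm hs w z]; ring

theorem sq_le_of_forall {a b c : ℝ} (h : ∀ s : ℝ, 0 ≤ a + 2 * s * b + s ^ 2 * c) :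
    b ^ 2 ≤ a * c := by
  have h1 : ∀ x : ℝ, 0 ≤ c * (x * x) + (2 * b) * x + a := by
    intro x
    have := h x
    nlinarith [this]
  have h2 := discrim_le_zero h1
  unfold discrim at h2
  nlinarith

theorem qf_sub (A B : V → V → ℝ) (x : V → ℝ) :
    qf (fun i j => A i j - B i j) x = qf A x - qf B x := by
  simp only [qf, ← Finset.sum_sub_distrib]
  refine Finset.sum_congr rfl fun i _ => Finset.sum_congr rfl fun j _ => by ring

theorem qf_smul (c : ℝ) (B : V → V → ℝ) (x : V → ℝ) :
    qf (fun i j => c * B i j) x = c * qf B x := by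
  simp only [qf, Finset.mul_sum]
  refine Finset.sum_congr rfl fun i _ => Finset.sum_congr rfl fun j _ => by ring

theorem psd_smul {B : V → V → ℝ} (hB : Psd B) {c : ℝ} (hc : 0 ≤ c) :
    Psd (fun i j => c * B i j) :=
  ⟨fun i j => by show c * B i j = c * B j i; rw [hB.1],
    fun x => by rw [qf_smul]; exact mul_nonneg hc (hB.2 x)⟩

theorem psd_one : Psd (fun _ _ : V => (1 : ℝ)) := by
  have h := psd_rankOne (fun _ : V => (1 : ℝ))
  have e : (fun _ _ : V => (1 : ℝ)) = fun _ _ : V => (1 : ℝ) * 1 := by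
    funext i j; ring
  rw [e]; exact h

theorem psd_zero : Psd (fun _ _ : V => (0 : ℝ)) :=
  ⟨fun _ _ => rfl, fun x => by simp [qf]⟩

theorem psd_pow_nat {N : V → V → ℝ} (hN : Psd N) (n : ℕ) : Psd (fun i j => N i j ^ n) := by
  induction n with
  | zero =>
    have e : (fun i j => N i j ^ 0) = fun _ _ : V => (1 : ℝ) := by funext i j; exact pow_zero _
    rw [e]; exact psd_one
  | succ n ih =>
    have e : (fun i j => N i j ^ (n + 1)) = fun i j => N i j ^ n * N i j := by
      funext i j; exact pow_succ _ _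
    rw [e]; exact ih.hadamard hN

/-- if `B` and `C` are ordered term by term, so are their Schur products -/
theorem prod_mono {ι : Type*} (s : Finset ι) (C B : ι → V → V → ℝ)
    (h1 : ∀ k ∈ s, Psd (C k)) (h2 : ∀ k ∈ s, Psd (fun i j => B k i j - C k i j)) :
    Psd (fun i j => ∏ k ∈ s, C k i j) ∧
      Psd (fun i j => (∏ k ∈ s, B k i j) - ∏ k ∈ s, C k i j) := by
  classical
  induction s using Finset.induction_on with
  | empty =>
    simp only [Finset.prod_empty, sub_self]
    exact ⟨psd_one, psd_zero⟩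
  | insert a s ha ih =>
    obtain ⟨i1, i2⟩ := ih (fun k hk => h1 k (Finset.mem_insert_of_mem hk))
      (fun k hk => h2 k (Finset.mem_insert_of_mem hk))
    have a1 := h1 a (Finset.mem_insert_self a s)
    have a2 := h2 a (Finset.mem_insert_self a s)
    have b1 : Psd (fun i j => ∏ k ∈ s, B k i j) := by
      have := i1.add i2
      have e : (fun i j => (∏ k ∈ s, C k i j) + ((∏ k ∈ s, B k i j) - ∏ k ∈ s, C k i j)) =
          fun i j => ∏ k ∈ s, B k i j := by funext i j; ring
      rw [e] at this
      exact this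
    constructor
    · have e : (fun i j => ∏ k ∈ insert a s, C k i j) =
          fun i j => C a i j * ∏ k ∈ s, C k i j := by
        funext i j; rw [Finset.prod_insert ha]
      rw [e]; exact a1.hadamard i1
    · have e : (fun i j => (∏ k ∈ insert a s, B k i j) - ∏ k ∈ insert a s, C k i j) =
          fun i j => (B a i j - C a i j) * (∏ k ∈ s, B k i j) +
            C a i j * ((∏ k ∈ s, B k i j) - ∏ k ∈ s, C k i j) := by
        funext i j
        rw [Finset.prod_insert ha, Finset.prod_insert ha]; ring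
      rw [e]
      exact (a2.hadamard b1).add (a1.hadamard i2)

/-- bilinear form against a rank one difference -/
theorem qf_rankOne (h x : V → ℝ) : qf (fun i j => h i * h j) x = (∑ i, x i * h i) ^ 2 := by
  rw [sq, Finset.sum_mul_sum]
  simp only [qf]
  refine Finset.sum_congr rfl fun i _ => Finset.sum_congr rfl fun j _ => by ring

theorem bf_single [DecidableEq V] (B : V → V → ℝ) (z : V → ℝ) (y : V) :
    bf B z (Pi.single y 1) = ∑ i, z i * B i y := by
  simp only [bf, Pi.single_apply]
  refine Finset.sum_congr rfl fun i _ => ?_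
  simp

theorem qf_single_one [DecidableEq V] (B : V → V → ℝ) (y : V) :
    qf B (Pi.single y 1) = B y y := by
  simp [qf, Pi.single_apply]

/-- the Schur complement at a vertex with unit diagonal entry -/
theorem psd_schur_at {B : V → V → ℝ} (hB : Psd B) {y : V} (h1 : B y y = 1) :
    Psd (fun i j => B i j - B i y * B j y) := by
  classical
  refine ⟨fun i j => by
    show B i j - B i y * B j y = B j i - B j y * B i y
    rw [hB.1 i j, mul_comm (B i y)], fun x => ?_⟩
  have h2 : qf (fun i j => B i j - B i y * B j y) x = qf B x - (∑ i, x i * B i y) ^ 2 := by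
    rw [qf_sub B (fun i j => B i y * B j y), qf_rankOne (fun i => B i y)]
  rw [h2]
  have h3 : ∀ s : ℝ, 0 ≤ qf B x + 2 * s * (∑ i, x i * B i y) + s ^ 2 * 1 := by
    intro s
    have := hB.2 (fun i => x i + s * (Pi.single y 1 : V → ℝ) i)
    rw [qf_add_smul hB.1, bf_single, qf_single_one, h1] at this
    exact this
  have := sq_le_of_forall h3
  linarith

/-- comparison: `D ≤ B`, `D` kills `K`, `D ≥ c B` on vectors supported on `K'` -/
theorem bf_sq_le {B D : V → V → ℝ} (hB : ∀ i j, B i j = B j i) (hD : ∀ i j, D i j = D j i)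
    (hBD : Psd (fun i j => B i j - D i j)) {c : ℝ} {z w : V → ℝ}
    (hz : ∀ i j, z i ≠ 0 → D i j = 0) (hw : c * qf B w ≤ qf D w) :
    bf B z w ^ 2 ≤ qf B z * ((1 - c) * qf B w) := by
  apply sq_le_of_forall
  intro s
  have h1 := hBD.2 (fun i => z i + s * w i)
  rw [qf_sub B D, qf_add_smul hB, qf_add_smul hD] at h1
  have hz0 : ∀ i j, z i * D i j = 0 := by
    intro i j
    by_cases h : z i = 0
    · rw [h, zero_mul]
    · rw [hz i j h, mul_zero]
  have h2 : qf D z = 0 := by
    simp only [qf]
    refine Finset.sum_eq_zero fun i _ => Finset.sum_eq_zero fun j _ => ?_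
    rw [hz0, zero_mul]
  have h3 : bf D z w = 0 := by
    simp only [bf]
    refine Finset.sum_eq_zero fun i _ => Finset.sum_eq_zero fun j _ => ?_
    rw [hz0, zero_mul]
  rw [h2, h3] at h1
  nlinarith [mul_nonneg (sq_nonneg s) (sub_nonneg.2 hw)]

/-- product of numbers `1 - a` -/
theorem one_sub_sum_le_prod {ι : Type*} (s : Finset ι) (a : ι → ℝ) (h0 : ∀ k ∈ s, 0 ≤ a k)
    (h1 : ∀ k ∈ s, a k ≤ 1) :
    0 ≤ ∏ k ∈ s, (1 - a k) ∧ ∏ k ∈ s, (1 - a k) ≤ 1 ∧
      1 - ∑ k ∈ s, a k ≤ ∏ k ∈ s, (1 - a k) := by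
  classical
  induction s using Finset.induction_on with
  | empty => simp
  | insert b s hb ih =>
    obtain ⟨i0, i1, i2⟩ := ih (fun k hk => h0 k (Finset.mem_insert_of_mem hk))
      (fun k hk => h1 k (Finset.mem_insert_of_mem hk))
    have b0 := h0 b (Finset.mem_insert_self b s)
    have b1 := h1 b (Finset.mem_insert_self b s)
    rw [Finset.prod_insert hb, Finset.sum_insert hb]
    refine ⟨mul_nonneg (by linarith) i0, ?_, ?_⟩
    · nlinarith
    · nlinarith

end Pool.Agent.Helper11.CE
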