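import Pool.Agent.Helper11.CE.Pair2
import Pool.Agent.Helper11.CE.Cluster2

/-!
# High Schur powers of matrices whose pattern has small cliques
-/

open Finset

namespace Pool.Agent.Helper11.CE

open Pool.Agent.Helper71.CE

/-- block diagonal dominance -/
theorem dd {Q : Type*} [Fintype Q] [DecidableEq Q] (F θ : Q → Q → ℝ) (hF : ∀ q, 0 ≤ F q q)
    (hθs : ∀ q q', θ q q' = θ q' q)
    (hoff : ∀ q q', q ≠ q' → 0 ≤ θ q q' * (F q q + F q' q') + 2 * F q q')
    (hrow : ∀ q, ∑ q', (if q' = q then 0 else θ q q') ≤ 1) : 0 ≤ ∑ q, ∑ q', F q q' := by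
  set T : ℝ := ∑ q, ∑ q', (if q' = q then 0 else θ q q' * F q q) with hT
  have hT' : ∑ q, ∑ q', (if q' = q then 0 else θ q q' * F q' q') = T := by
    rw [Finset.sum_comm]
    refine Finset.sum_congr rfl fun q _ => Finset.sum_congr rfl fun q' _ => ?_
    by_cases h : q = q'
    · rw [if_pos h, if_pos h.symm]
    · rw [if_neg h, if_neg (fun e => h e.symm), hθs]
  have hT1 : T ≤ ∑ q, F q q := by
    refine Finset.sum_le_sum fun q _ => ?_
    have e : ∑ q', (if q' = q then 0 else θ q q' * F q q) =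
        (∑ q', (if q' = q then 0 else θ q q')) * F q q := by
      rw [Finset.sum_mul]
      refine Finset.sum_congr rfl fun q' _ => ?_
      split_ifs <;> ring
    rw [e]
    calc (∑ q', (if q' = q then 0 else θ q q')) * F q q ≤ 1 * F q q :=
          mul_le_mul_of_nonneg_right (hrow q) (hF q)
      _ = F q q := one_mul _
  have hlow : ∑ q, ∑ q', ((if q' = q then 2 * F q q else 0) -
      ((if q' = q then 0 else θ q q' * F q q) + (if q' = q then 0 else θ q q' * F q' q'))) ≤
      2 * ∑ q, ∑ q', F q q' := by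
    rw [Finset.mul_sum]
    refine Finset.sum_le_sum fun q _ => ?_
    rw [Finset.mul_sum]
    refine Finset.sum_le_sum fun q' _ => ?_
    by_cases h : q' = q
    · subst h; simp
    · simp only [if_neg h]
      have := hoff q q' (fun e => h e.symm)
      linarith
  have e2 : ∑ q, ∑ q', ((if q' = q then 2 * F q q else 0) -
      ((if q' = q then 0 else θ q q' * F q q) + (if q' = q then 0 else θ q q' * F q' q'))) =
      2 * ∑ q, F q q - (T + T) := by
    simp only [Finset.sum_sub_distrib, Finset.sum_add_distrib]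
    rw [hT']
    have e3 : ∑ q, ∑ q', (if q' = q then 2 * F q q else 0) = 2 * ∑ q, F q q := by
      rw [Finset.mul_sum]
      refine Finset.sum_congr rfl fun q _ => ?_
      rw [Finset.sum_ite_eq' Finset.univ q (fun _ => 2 * F q q), if_pos (Finset.mem_univ q)]
    rw [e3]
  rw [e2] at hlow
  linarith

variable {V : Type*} [Fintype V]

theorem bf_sum_left {Q : Type*} [Fintype Q] (B : V → V → ℝ) (z : Q → V → ℝ) (w : V → ℝ) :
    bf B (fun i => ∑ q, z q i) w = ∑ q, bf B (z q) w := by
  simp only [bf, Finset.sum_mul]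
  rw [Finset.sum_congr rfl fun i _ => Finset.sum_comm, Finset.sum_comm]

theorem bf_sum_right {Q : Type*} [Fintype Q] (B : V → V → ℝ) (z : V → ℝ) (w : Q → V → ℝ) :
    bf B z (fun i => ∑ q, w q i) = ∑ q, bf B z (w q) := by
  simp only [bf, Finset.mul_sum]
  rw [Finset.sum_congr rfl fun i _ => Finset.sum_comm, Finset.sum_comm]

variable [DecidableEq V] {N : V → V → ℝ}

theorem main_norm {G : SimpleGraph V} (hN : Psd N) (h1 : ∀ i, N i i = 1) (h0 : ∀ i j, 0 ≤ N i j)
    (hpat : ∀ i j, i ≠ j → ¬ G.Adj i j → N i j = 0) {r m : ℕ} (hr : 1 ≤ r)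
    (hG : G.CliqueFree (r + 1)) (hm : 2 * r ≤ m)
    (hm2 : (r : ℝ) ^ 2 * (1 - 1 / (r : ℝ) ^ 2) ^ (m - 2 * r) ≤ 1) {t : ℝ}
    (ht : (r : ℝ) ^ 2 * m + 2 * r - 2 ≤ t) : Psd (hpow N t) := by
  obtain ⟨Q, _, _, c, hc1, hc2⟩ := exists_clusters hN h1 hpat hr hG
  have hr0 : (1 : ℝ) ≤ r := by exact_mod_cast hr
  have hβ : 0 ≤ 1 - 1 / (r : ℝ) ^ 2 := by
    have : (1 : ℝ) ≤ (r : ℝ) ^ 2 := one_le_pow₀ hr0
    rw [sub_nonneg, div_le_one (by positivity)]
    exact this
  have hm0 : (0 : ℝ) ≤ m := Nat.cast_nonneg m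
  have ht0 : 0 ≤ t := by
    have : 0 ≤ (r : ℝ) ^ 2 * m := by positivity
    linarith
  refine ⟨hpow_symm hN t, fun y => ?_⟩
  set K : Q → Finset V := fun q => Finset.univ.filter fun i => c i = q with hK
  have hKm : ∀ q i, i ∈ K q ↔ c i = q := fun q i => by simp [hK]
  -- decomposition of the form
  have hy : y = fun i => ∑ q, rst (K q) y i := by
    funext i
    rw [Finset.sum_eq_single (c i)]
    · simp [rst, hKm]
    · intro q _ hq
      simp only [rst, hKm]
      rw [if_neg fun e => hq e.symm]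
    · simp
  have hdec : qf (hpow N t) y =
      ∑ q, ∑ q', bf (hpow N t) (rst (K q) y) (rst (K q') y) := by
    have e : qf (hpow N t) y = bf (hpow N t) y y := rfl
    rw [e]
    conv_lhs => rw [hy]
    rw [bf_sum_left]
    refine Finset.sum_congr rfl fun q _ => ?_
    rw [bf_sum_right]
  rw [hdec]
  refine dd (fun q q' => bf (hpow N t) (rst (K q) y) (rst (K q') y))
    (fun q q' => ∑ x ∈ K q, ∑ z ∈ K q', N x z ^ m) ?_ ?_ ?_ ?_
  · intro q
    have hcard : (((K q).card : ℕ) : ℝ) - 2 ≤ t := by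
      have : (((K q).card : ℕ) : ℝ) ≤ r := by exact_mod_cast hc2 q
      have h2 : 0 ≤ (r : ℝ) ^ 2 * m := by positivity
      linarith
    have := (psd_res_hpow hN h0 (K q) ht0 hcard).2 y
    rw [qf_res] at this
    exact this
  · intro q q'
    rw [Finset.sum_comm]
    refine Finset.sum_congr rfl fun x _ => Finset.sum_congr rfl fun z _ => ?_
    rw [hN.1 x z]
  · intro q q' hqq
    rcases (K q).eq_empty_or_nonempty with hq | hq
    · have e : rst (K q) y = fun _ => 0 := by
        funext i; simp [rst, hq]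
      have e2 : bf (hpow N t) (rst (K q) y) (rst (K q') y) = 0 := by
        rw [e]; simp [bf]
      show 0 ≤ (∑ x ∈ K q, ∑ z ∈ K q', N x z ^ m) * _ +
        2 * bf (hpow N t) (rst (K q) y) (rst (K q') y)
      rw [e2, hq]
      simp only [Finset.sum_empty, zero_mul, mul_zero, add_zero, le_refl]
    rcases (K q').eq_empty_or_nonempty with hq' | hq'
    · have e : ∀ i, rst (K q') y i = 0 := by
        intro i
        show (if i ∈ K q' then y i else 0) = 0
        rw [hq', if_neg (Finset.notMem_empty i)]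
      have e2 : bf (hpow N t) (rst (K q) y) (rst (K q') y) = 0 := by
        refine Finset.sum_eq_zero fun i _ => Finset.sum_eq_zero fun j _ => ?_
        rw [e j, mul_zero]
      show 0 ≤ (∑ x ∈ K q, ∑ z ∈ K q', N x z ^ m) * _ +
        2 * bf (hpow N t) (rst (K q) y) (rst (K q') y)
      rw [e2, hq']
      simp only [Finset.sum_empty, Finset.sum_const_zero, zero_mul, mul_zero, add_zero, le_refl]
    refine pair hN h1 h0 m (K q) (K q') hq hq' ?_ y
    have a1 : (((K q).card : ℕ) : ℝ) ≤ r := by exact_mod_cast hc2 q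
    have a2 : (((K q').card : ℕ) : ℝ) ≤ r := by exact_mod_cast hc2 q'
    have a3 : ((m * (K q').card * (K q).card : ℕ) : ℝ) ≤ (r : ℝ) ^ 2 * m := by
      push_cast
      calc (m : ℝ) * (K q').card * (K q).card ≤ m * r * r :=
            mul_le_mul (mul_le_mul_of_nonneg_left a2 hm0) a1 (Nat.cast_nonneg _)
              (mul_nonneg hm0 (by linarith))
        _ = _ := by ring
    linarith
  · intro q
    have e1 : ∑ q', (if q' = q then 0 else ∑ x ∈ K q, ∑ z ∈ K q', N x z ^ m) =
        ∑ x ∈ K q, ∑ z ∈ Finset.univ.filter (fun z => c z ≠ q), N x z ^ m := by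
      have e2 : ∀ q', (if q' = q then 0 else ∑ x ∈ K q, ∑ z ∈ K q', N x z ^ m) =
          ∑ x ∈ K q, (if q' = q then 0 else ∑ z ∈ K q', N x z ^ m) := by
        intro q'
        split_ifs <;> simp
      rw [Finset.sum_congr rfl fun q' _ => e2 q', Finset.sum_comm]
      refine Finset.sum_congr rfl fun x _ => ?_
      have e3 : ∀ q', (if q' = q then 0 else ∑ z ∈ K q', N x z ^ m) =
          ∑ z, (if q' = q then 0 else if c z = q' then N x z ^ m else 0) := by
        intro q'
        by_cases h : q' = q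
        · simp [h]
        · simp only [if_neg h, hK]
          rw [Finset.sum_filter]
      rw [Finset.sum_congr rfl fun q' _ => e3 q', Finset.sum_comm, Finset.sum_filter]
      refine Finset.sum_congr rfl fun z _ => ?_
      rw [Finset.sum_eq_single (c z)]
      · by_cases h : c z = q
        · rw [if_pos h, if_neg (not_not.2 h)]
        · rw [if_neg h, if_pos rfl, if_pos h]
      · intro q' _ hq'
        by_cases h : q' = q
        · rw [if_pos h]
        · rw [if_neg h, if_neg (fun e => hq' e.symm)]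
      · simp
    have e4 : ∑ q', (if q' = q then 0 else ∑ x ∈ K q, ∑ z ∈ K q', N x z ^ m) ≤
        ∑ x ∈ K q, (r : ℝ) * (1 - 1 / (r : ℝ) ^ 2) ^ (m - 2 * r) := by
      rw [e1]
      refine Finset.sum_le_sum fun x hx => ?_
      refine row_bound hN h1 h0 hpat hG hm hβ x _ fun z hz => hc1 x z ?_
      rw [(hKm q x).1 hx]
      exact fun e => (Finset.mem_filter.1 hz).2 e.symm
    refine e4.trans ?_
    rw [Finset.sum_const, nsmul_eq_mul]
    have a1 : (((K q).card : ℕ) : ℝ) ≤ r := by exact_mod_cast hc2 q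
    have a4 : 0 ≤ (r : ℝ) * (1 - 1 / (r : ℝ) ^ 2) ^ (m - 2 * r) := by positivity
    calc ((K q).card : ℝ) * ((r : ℝ) * (1 - 1 / (r : ℝ) ^ 2) ^ (m - 2 * r)) ≤
          r * ((r : ℝ) * (1 - 1 / (r : ℝ) ^ 2) ^ (m - 2 * r)) :=
          mul_le_mul_of_nonneg_right a1 a4
      _ = (r : ℝ) ^ 2 * (1 - 1 / (r : ℝ) ^ 2) ^ (m - 2 * r) := by ring
      _ ≤ 1 := hm2

end Pool.Agent.Helper11.CE
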