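import Pool.Agent.Helper11.CE.Bound
import Pool.Agent.Helper71.CE.Lower

/-!
# The lower bound by the clique number, limits of exponents and cones
-/

open Finset

namespace Pool.Agent.Helper11.CE

open Pool.Agent.Helper71.CE

section
variable {V : Type*} [Fintype V] [DecidableEq V]

/-- exponents in `(m, m+1)` fail for graphs with a clique on `m + 3` vertices -/
theorem clique_fail {G : SimpleGraph V} {m : ℕ} {S : Finset V} (hS : G.IsNClique (m + 3) S)
    {β : ℝ} (h1 : (m : ℝ) < β) (h2 : β < m + 1) :
    ∃ A, InPG G A ∧ ¬ Psd (hpow A β) := by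
  classical
  obtain ⟨s, hs0, hs⟩ := exists_not_psd h1 h2
  have hScard : S.card = m + 3 := hS.card_eq
  have hcard : Fintype.card (Option (Option (Fin (m + 1)))) = Fintype.card (↥S) := by
    rw [Fintype.card_option, Fintype.card_option, Fintype.card_fin, Fintype.card_coe, hScard]
  let eqv := Fintype.equivOfCardEq hcard
  let e : Option (Option (Fin (m + 1))) → V := fun o => (eqv o : V)
  have hei : Function.Injective e := fun o o' h => eqv.injective (Subtype.ext h)
  have heS : ∀ o, e o ∈ S := fun o => (eqv o).2
  let a0 : Option (Option (Fin (m + 1))) → ℝ := fun o =>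
    o.elim 1 (fun o' => o'.elim 0 (fun _ => 1))
  let b0 : Option (Option (Fin (m + 1))) → ℝ := fun o =>
    o.elim 0 (fun o' => o'.elim 1 s)
  have ha0 : ∀ o, 0 ≤ a0 o := by
    rintro (_ | _ | i)
    · show (0 : ℝ) ≤ 1; norm_num
    · show (0 : ℝ) ≤ 0; norm_num
    · show (0 : ℝ) ≤ 1; norm_num
  have hb0 : ∀ o, 0 ≤ b0 o := by
    rintro (_ | _ | i)
    · show (0 : ℝ) ≤ 0; norm_num
    · show (0 : ℝ) ≤ 1; norm_num
    · exact (hs0 i).le
  let a : V → ℝ := fun p => ∑ o, if e o = p then a0 o else 0
  let b : V → ℝ := fun p => ∑ o, if e o = p then b0 o else 0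
  have hae : ∀ o, a (e o) = a0 o := by
    intro o
    simp only [a]
    rw [Finset.sum_eq_single o]
    · rw [if_pos rfl]
    · intro o' _ ho'
      rw [if_neg fun h => ho' (hei h)]
    · simp
  have hbe : ∀ o, b (e o) = b0 o := by
    intro o
    simp only [b]
    rw [Finset.sum_eq_single o]
    · rw [if_pos rfl]
    · intro o' _ ho'
      rw [if_neg fun h => ho' (hei h)]
    · simp
  have hout : ∀ p, p ∉ S → a p = 0 ∧ b p = 0 := by
    intro p hp
    have hne : ∀ o, e o ≠ p := fun o h => hp (h ▸ heS o)
    exact ⟨Finset.sum_eq_zero fun o _ => if_neg (hne o),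
      Finset.sum_eq_zero fun o _ => if_neg (hne o)⟩
  have ha : ∀ p, 0 ≤ a p := fun p =>
    Finset.sum_nonneg fun o _ => by split_ifs <;> [exact ha0 o; exact le_rfl]
  have hb : ∀ p, 0 ≤ b p := fun p =>
    Finset.sum_nonneg fun o _ => by split_ifs <;> [exact hb0 o; exact le_rfl]
  let A : V → V → ℝ := fun p q => a p * a q + b p * b q
  have hApsd : Psd A := (psd_rankOne a).add (psd_rankOne b)
  have hA0 : ∀ p q, 0 ≤ A p q := fun p q =>
    add_nonneg (mul_nonneg (ha p) (ha q)) (mul_nonneg (hb p) (hb q))
  have hpat : ∀ p q, p ≠ q → ¬ G.Adj p q → A p q = 0 := by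
    intro p q hpq hadj
    show a p * a q + b p * b q = 0
    by_cases hp : p ∈ S
    · by_cases hq : q ∈ S
      · exact absurd (hS.isClique (Finset.mem_coe.2 hp) (Finset.mem_coe.2 hq) hpq) hadj
      · rw [(hout q hq).1, (hout q hq).2]; ring
    · rw [(hout p hp).1, (hout p hp).2]; ring
  refine ⟨A, ⟨hApsd, hA0, hpat⟩, fun hpsd => hs ?_⟩
  have p1 : pw β 1 = 1 := by rw [pw_of_pos one_pos, Real.one_rpow]
  have hval : ∀ o o', hpow A β (e o) (e o') = pw β (a0 o * a0 o' + b0 o * b0 o') := by
    intro o o'
    show pw β (a (e o) * a (e o') + b (e o) * b (e o')) = _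
    rw [hae, hae, hbe, hbe]
  have hnn : hpow A β (e none) (e none) = 1 := by
    rw [hval]; show pw β (1 * 1 + 0 * 0) = 1; simpa using p1
  have hss : hpow A β (e (some none)) (e (some none)) = 1 := by
    rw [hval]; show pw β (0 * 0 + 1 * 1) = 1; simpa using p1
  have hsn : hpow A β (e (some none)) (e none) = 0 := by
    rw [hval]; show pw β (0 * 1 + 1 * 0) = 0; simp [pw]
  have hin : ∀ i, hpow A β (e (some (some i))) (e none) = 1 := by
    intro i
    rw [hval]; show pw β (1 * 1 + s i * 0) = 1; simpa using p1
  have his : ∀ i, hpow A β (e (some (some i))) (e (some none)) = s i ^ β := by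
    intro i
    rw [hval]; show pw β (1 * 0 + s i * 1) = _
    rw [mul_zero, zero_add, mul_one, pw_of_pos (hs0 i)]
  have hij : ∀ i j, hpow A β (e (some (some i))) (e (some (some j))) = (1 + s i * s j) ^ β := by
    intro i j
    rw [hval]; show pw β (1 * 1 + s i * s j) = _
    rw [mul_one]
    exact pw_of_pos (by have := mul_pos (hs0 i) (hs0 j); linarith)
  have h3 := hpsd.submatrix (W := Option (Option (Fin (m + 1)))) e
  have h4 := psd_schur h3 (by show 0 < hpow A β (e none) (e none); rw [hnn]; norm_num)
  have e0 : schur (fun i j => hpow A β (e i) (e j)) none none = 1 := by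
    show hpow A β (e (some none)) (e (some none)) - hpow A β (e (some none)) (e none) *
      hpow A β (e (some none)) (e none) / hpow A β (e none) (e none) = 1
    rw [hss, hsn, hnn]; norm_num
  have h5 := psd_schur h4 (by rw [e0]; norm_num)
  have e1 : schur (schur (fun i j => hpow A β (e i) (e j))) =
      fun i j => (1 + s i * s j) ^ β - 1 - s i ^ β * s j ^ β := by
    funext i j
    show schur (fun i j => hpow A β (e i) (e j)) (some i) (some j) -
      schur (fun i j => hpow A β (e i) (e j)) (some i) none *
      schur (fun i j => hpow A β (e i) (e j)) (some j) none /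
      schur (fun i j => hpow A β (e i) (e j)) none none = _
    rw [e0]
    show (hpow A β (e (some (some i))) (e (some (some j))) -
        hpow A β (e (some (some i))) (e none) * hpow A β (e (some (some j))) (e none) /
        hpow A β (e none) (e none)) -
      (hpow A β (e (some (some i))) (e (some none)) -
        hpow A β (e (some (some i))) (e none) * hpow A β (e (some none)) (e none) /
        hpow A β (e none) (e none)) *
      (hpow A β (e (some (some j))) (e (some none)) -
        hpow A β (e (some (some j))) (e none) * hpow A β (e (some none)) (e none) /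
        hpow A β (e none) (e none)) / 1 = _
    rw [hij, hin, hin, his, his, hsn, hnn]
    ring
  rw [e1] at h5
  exact h5

/-- positive semidefiniteness passes to the limit of the exponent -/
theorem psd_limit {A : V → V → ℝ} (hs : ∀ i j, A i j = A j i) (hA : ∀ i j, 0 ≤ A i j) {c : ℝ}
    (h : ∀ β, c < β → Psd (hpow A β)) : Psd (hpow A c) := by
  refine ⟨fun i j => by simp only [hpow, hs i j], fun x => ?_⟩
  have hcont : ∀ a : ℝ, 0 ≤ a → Continuous fun β : ℝ => pw β a := by
    intro a ha
    rcases ha.lt_or_eq with h1 | h1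
    · have : (fun β : ℝ => pw β a) = fun β => a ^ β := by
        funext β
        exact pw_of_pos h1
      rw [this]
      exact Real.continuous_const_rpow h1.ne'
    · have : (fun β : ℝ => pw β a) = fun _ => 0 := by
        funext β
        rw [← h1, pw_zero]
      rw [this]
      exact continuous_const
  have hq : Continuous fun β : ℝ => qf (hpow A β) x := by
    unfold qf
    refine continuous_finsetSum _ fun i _ => continuous_finsetSum _ fun j _ => ?_
    exact (continuous_const.mul (hcont _ (hA i j))).mul continuous_const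
  have hlim : Filter.Tendsto (fun n : ℕ => qf (hpow A (c + 1 / ((n : ℝ) + 1))) x) Filter.atTop
      (nhds (qf (hpow A c) x)) := by
    have h1 : Filter.Tendsto (fun n : ℕ => c + 1 / ((n : ℝ) + 1)) Filter.atTop (nhds c) := by
      have := tendsto_one_div_add_atTop_nhds_zero_nat (𝕜 := ℝ)
      simpa using this.const_add c
    exact (hq.tendsto c).comp h1
  apply ge_of_tendsto' hlim
  intro n
  apply (h _ _).2
  have : (0 : ℝ) < 1 / ((n : ℝ) + 1) := by positivity
  linarith

end

/-- the cone has no clique on `r + 2` vertices if the graph has none on `r + 1` -/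
theorem cone_cliqueFree {V : Type*} [Fintype V] [DecidableEq V] {G : SimpleGraph V} {r : ℕ}
    (hG : G.CliqueFree (r + 1)) : (cone G).CliqueFree (r + 1 + 1) := by
  intro S hS
  rw [SimpleGraph.isNClique_iff] at hS
  obtain ⟨hS1, hS2⟩ := hS
  set T : Finset V := Finset.univ.filter fun v => some v ∈ S with hT
  have hTc : G.IsClique (T : Set V) := by
    intro a ha b hb hab
    have ha' := (Finset.mem_filter.1 (Finset.mem_coe.1 ha)).2
    have hb' := (Finset.mem_filter.1 (Finset.mem_coe.1 hb)).2
    exact cone_adj_some.1 (hS1 (Finset.mem_coe.2 ha') (Finset.mem_coe.2 hb')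
      fun e => hab (Option.some_injective _ e))
  have hSsub : S ⊆ insert none (T.image some) := by
    intro x hx
    rcases x with _ | v
    · exact Finset.mem_insert_self _ _
    · refine Finset.mem_insert_of_mem (Finset.mem_image.2 ⟨v, ?_, rfl⟩)
      exact Finset.mem_filter.2 ⟨Finset.mem_univ v, hx⟩
  have hcard : r + 1 ≤ T.card := by
    have h1 := Finset.card_le_card hSsub
    have h2 := Finset.card_insert_le (none : Option V) (T.image some)
    have h3 := Finset.card_image_le (s := T) (f := (some : V → Option V))
    omega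
  obtain ⟨U, hUT, hU⟩ := Finset.exists_subset_card_eq hcard
  refine hG U ?_
  rw [SimpleGraph.isNClique_iff]
  exact ⟨hTc.subset (Finset.coe_subset.2 hUT), hU⟩

end Pool.Agent.Helper11.CE
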