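import Pool.Agent.Helper11.CE.Forms

/-!
# The angle between two small clusters in a high Schur power
-/

open Finset

namespace Pool.Agent.Helper11.CE

open Pool.Agent.Helper71.CE

variable {V : Type*} [Fintype V] [DecidableEq V]

/-- restriction of a vector to a set -/
def rst (K : Finset V) (y : V → ℝ) : V → ℝ := fun i => if i ∈ K then y i else 0

/-- restriction of a matrix to a principal block, extended by zero -/
def res (K : Finset V) (B : V → V → ℝ) : V → V → ℝ := fun i j => if i ∈ K ∧ j ∈ K then B i j else 0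

theorem qf_res (K : Finset V) (B : V → V → ℝ) (x : V → ℝ) : qf (res K B) x = qf B (rst K x) := by
  simp only [qf, res, rst]
  refine Finset.sum_congr rfl fun i _ => Finset.sum_congr rfl fun j _ => ?_
  by_cases hi : i ∈ K <;> by_cases hj : j ∈ K <;> simp [hi, hj]

theorem qf_rst_eq_sum (K : Finset V) (B : V → V → ℝ) (x : V → ℝ) :
    qf B (rst K x) = ∑ i ∈ K, ∑ j ∈ K, x i * B i j * x j := by
  simp only [qf]
  rw [← Finset.sum_subset (Finset.subset_univ K)]
  · refine Finset.sum_congr rfl fun i hi => ?_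
    rw [← Finset.sum_subset (Finset.subset_univ K)]
    · refine Finset.sum_congr rfl fun j hj => ?_
      simp only [rst, if_pos hi, if_pos hj]
    · intro j _ hj
      simp only [rst, if_neg hj, mul_zero]
  · intro i _ hi
    refine Finset.sum_eq_zero fun j _ => ?_
    simp only [rst, if_neg hi, zero_mul]

theorem rst_eq_self {K : Finset V} {z : V → ℝ} (hz : ∀ i, i ∉ K → z i = 0) : rst K z = z := by
  funext i
  by_cases h : i ∈ K
  · simp only [rst, if_pos h]
  · simp only [rst, if_neg h, hz i h]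

theorem rst_supp (K : Finset V) (y : V → ℝ) : ∀ i, i ∉ K → rst K y i = 0 := by
  intro i hi
  simp only [rst, if_neg hi]

theorem psd_res {B : V → V → ℝ} (hs : ∀ i j, B i j = B j i) {K : Finset V}
    (h : ∀ z : V → ℝ, (∀ i, i ∉ K → z i = 0) → 0 ≤ qf B z) : Psd (res K B) := by
  refine ⟨fun i j => ?_, fun x => ?_⟩
  · simp only [res]
    by_cases hi : i ∈ K <;> by_cases hj : j ∈ K <;> simp [hi, hj, hs i j]
  · rw [qf_res]
    exact h _ (rst_supp K x)

/-- the real power is positive semidefinite on small sets (FitzGerald–Horn) -/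
theorem psd_res_hpow {N : V → V → ℝ} (hN : Psd N) (h0 : ∀ i j, 0 ≤ N i j) (U : Finset V) {s : ℝ}
    (hs : 0 ≤ s) (hU : (U.card : ℝ) - 2 ≤ s) : Psd (res U (hpow N s)) := by
  refine psd_res (hpow_symm hN s) fun z hz => ?_
  have h1 := fitzGerald_horn (↥U) (fun i j => N i j) (hN.submatrix (W := ↥U) (fun i => (i : V)))
    (fun i j => h0 _ _) s hs (by rw [Fintype.card_coe]; exact hU)
  have h2 := h1.2 (fun i => z i)
  rw [← rst_eq_self hz, qf_rst_eq_sum]
  have e : qf (hpow (fun i j : ↥U => N i j) s) (fun i => z i) =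
      ∑ i ∈ U, ∑ j ∈ U, z i * hpow N s i j * z j := by
    simp only [qf, hpow]
    rw [← Finset.sum_coe_sort U]
    refine Finset.sum_congr rfl fun i _ => ?_
    rw [← Finset.sum_coe_sort U]
  rw [e] at h2
  exact h2

variable {N : V → V → ℝ}

theorem entry_le_one (hN : Psd N) (h1 : ∀ i, N i i = 1) (i j : V) : N i j ≤ 1 := by
  have := hN.minor i j
  rw [h1, h1] at this
  nlinarith

/-- one vertex against a set -/
theorem l2 (hN : Psd N) (h1 : ∀ i, N i i = 1) (m : ℕ) (x : V) (K' : Finset V) (z : V → ℝ)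
    (hz : ∀ i, i ∉ K' → z i = 0) :
    (∑ i, z i * N i x ^ (m * K'.card)) ^ 2 ≤
      (1 - ∏ y ∈ K', (1 - (N x y ^ m) ^ 2)) * qf (fun i j => N i j ^ (m * K'.card)) z := by
  set C : V → V → ℝ := fun i j => ∏ y ∈ K', (N i j ^ m - N i y ^ m * N j y ^ m) with hC
  set B : V → V → ℝ := fun i j => N i j ^ (m * K'.card) with hB
  have hBp : ∀ i j, (∏ _y ∈ K', N i j ^ m) = B i j := by
    intro i j
    rw [Finset.prod_const, ← pow_mul]
  obtain ⟨p1, p2⟩ := prod_mono K' (fun y i j => N i j ^ m - N i y ^ m * N j y ^ m)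
    (fun _ i j => N i j ^ m)
    (fun y _ => psd_schur_at (psd_pow_nat hN m) (by rw [h1, one_pow]))
    (fun y _ => by
      have e : (fun i j => N i j ^ m - (N i j ^ m - N i y ^ m * N j y ^ m)) =
          fun i j => N i y ^ m * N j y ^ m := by funext i j; ring
      rw [e]; exact psd_rankOne _)
  have p3 : Psd (fun i j => B i j - C i j) := by
    have e : (fun i j => (∏ _y ∈ K', N i j ^ m) - ∏ y ∈ K', (N i j ^ m - N i y ^ m * N j y ^ m)) =
        fun i j => B i j - C i j := by
      funext i j; rw [hBp]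
    rw [e] at p2; exact p2
  have hBs : ∀ i j, B i j = B j i := fun i j => by simp only [hB, hN.1 i j]
  have hkill : ∀ i j, z i ≠ 0 → C i j = 0 := by
    intro i j hi
    have hiK : i ∈ K' := by
      by_contra h; exact hi (hz i h)
    refine Finset.prod_eq_zero hiK ?_
    rw [h1 i, one_pow, one_mul, hN.1 i j, sub_self]
  have hCx : C x x = ∏ y ∈ K', (1 - (N x y ^ m) ^ 2) := by
    simp only [hC]
    refine Finset.prod_congr rfl fun y _ => ?_
    rw [h1, one_pow]; ring
  have key := bf_sq_le (B := B) (D := C) hBs p1.1 p3 (c := C x x) (z := z)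
    (w := (Pi.single x 1 : V → ℝ)) hkill (by
      rw [qf_single_one, qf_single_one]
      have : B x x = 1 := by simp only [hB]; rw [h1, one_pow]
      rw [this, mul_one])
  rw [bf_single, qf_single_one, hCx] at key
  have hBx : B x x = 1 := by simp only [hB]; rw [h1, one_pow]
  rw [hBx, mul_one] at key
  calc (∑ i, z i * N i x ^ (m * K'.card)) ^ 2 = (∑ i, z i * B i x) ^ 2 := rfl
    _ ≤ qf B z * (1 - ∏ y ∈ K', (1 - (N x y ^ m) ^ 2)) := key
    _ = _ := by rw [mul_comm]

/-- two sets -/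
theorem l3 (hN : Psd N) (h1 : ∀ i, N i i = 1) (h0 : ∀ i j, 0 ≤ N i j) (m : ℕ) (K K' : Finset V)
    (z w : V → ℝ) (hz : ∀ i, i ∉ K → z i = 0) (hw : ∀ i, i ∉ K' → w i = 0) :
    bf (fun i j => N i j ^ (m * K'.card * K.card)) z w ^ 2 ≤
      qf (fun i j => N i j ^ (m * K'.card * K.card)) z *
        ((1 - ∏ x ∈ K, ∏ y ∈ K', (1 - (N x y ^ m) ^ 2)) *
          qf (fun i j => N i j ^ (m * K'.card * K.card)) w) := by
  set M : V → V → ℝ := fun i j => N i j ^ (m * K'.card) with hM
  have hMp : Psd M := psd_pow_nat hN _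
  have hM1 : ∀ i, M i i = 1 := fun i => by simp only [hM]; rw [h1, one_pow]
  set B : V → V → ℝ := fun i j => N i j ^ (m * K'.card * K.card) with hB
  set D : V → V → ℝ := fun i j => ∏ x ∈ K, (M i j - M i x * M j x) with hD
  have hBp : ∀ i j, (∏ _x ∈ K, M i j) = B i j := by
    intro i j
    rw [Finset.prod_const]
    simp only [hM, hB]
    rw [← pow_mul]
  set c : V → ℝ := fun x => ∏ y ∈ K', (1 - (N x y ^ m) ^ 2) with hc
  have hn1 : ∀ x y, (N x y ^ m) ^ 2 ≤ 1 := fun x y =>
    pow_le_one₀ (pow_nonneg (h0 x y) m) (pow_le_one₀ (h0 x y) (entry_le_one hN h1 x y))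
  have hc0 : ∀ x, 0 ≤ c x := fun x =>
    (one_sub_sum_le_prod K' (fun y => (N x y ^ m) ^ 2) (fun y _ => sq_nonneg _)
      (fun y _ => hn1 x y)).1
  obtain ⟨p1, p2⟩ := prod_mono K (fun x i j => M i j - M i x * M j x) (fun _ i j => M i j)
    (fun x _ => psd_schur_at hMp (hM1 x))
    (fun x _ => by
      have e : (fun i j => M i j - (M i j - M i x * M j x)) =
          fun i j => M i x * M j x := by funext i j; ring
      rw [e]; exact psd_rankOne _)
  have p3 : Psd (fun i j => B i j - D i j) := by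
    have e : (fun i j => (∏ _x ∈ K, M i j) - ∏ x ∈ K, (M i j - M i x * M j x)) =
        fun i j => B i j - D i j := by
      funext i j; rw [hBp]
    rw [e] at p2; exact p2
  have hBs : ∀ i j, B i j = B j i := fun i j => by simp only [hB, hN.1 i j]
  have hkill : ∀ i j, z i ≠ 0 → D i j = 0 := by
    intro i j hi
    have hiK : i ∈ K := by
      by_contra h; exact hi (hz i h)
    refine Finset.prod_eq_zero hiK ?_
    rw [hM1 i, one_mul, hMp.1 i j, sub_self]
  -- comparison on `K'`
  have q1 : ∀ x ∈ K, Psd (res K' (fun i j => c x * M i j)) := by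
    intro x _
    refine psd_res (fun i j => by rw [hMp.1 i j]) fun v _ => ?_
    rw [qf_smul]
    exact mul_nonneg (hc0 x) (hMp.2 v)
  have q2 : ∀ x ∈ K, Psd (fun i j => res K' (fun i j => M i j - M i x * M j x) i j -
      res K' (fun i j => c x * M i j) i j) := by
    intro x _
    have e : (fun i j => res K' (fun i j => M i j - M i x * M j x) i j -
        res K' (fun i j => c x * M i j) i j) =
        res K' (fun i j => (M i j - M i x * M j x) - c x * M i j) := by
      funext i j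
      simp only [res]
      by_cases h : i ∈ K' ∧ j ∈ K'
      · simp only [if_pos h]
      · simp only [if_neg h, sub_zero]
    rw [e]
    refine psd_res (fun i j => by rw [hMp.1 i j, mul_comm (M i x)]) fun v hv => ?_
    rw [qf_sub (fun i j => M i j - M i x * M j x) (fun i j => c x * M i j),
      qf_sub M (fun i j => M i x * M j x), qf_rankOne (fun i => M i x), qf_smul]
    have := l2 hN h1 m x K' v hv
    have h2 : (∑ i, v i * M i x) ^ 2 ≤ (1 - c x) * qf M v := this
    nlinarith
  obtain ⟨_, p5⟩ := prod_mono K (fun x => res K' (fun i j => c x * M i j))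
    (fun x => res K' (fun i j => M i j - M i x * M j x)) q1 q2
  have hcw : (∏ x ∈ K, c x) * qf B w ≤ qf D w := by
    have h3 := p5.2 w
    rw [qf_sub (fun i j => ∏ x ∈ K, res K' (fun i j => M i j - M i x * M j x) i j)
      (fun i j => ∏ x ∈ K, res K' (fun i j => c x * M i j) i j)] at h3
    have e1 : qf (fun i j => ∏ x ∈ K, res K' (fun i j => M i j - M i x * M j x) i j) w =
        qf D w := by
      simp only [qf]
      refine Finset.sum_congr rfl fun i _ => Finset.sum_congr rfl fun j _ => ?_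
      by_cases hi : i ∈ K'
      · by_cases hj : j ∈ K'
        · have : (∏ x ∈ K, res K' (fun i j => M i j - M i x * M j x) i j) = D i j := by
            simp only [hD]
            refine Finset.prod_congr rfl fun x _ => ?_
            simp only [res, if_pos (And.intro hi hj)]
          rw [this]
        · rw [hw j hj, mul_zero, mul_zero]
      · rw [hw i hi, zero_mul, zero_mul, zero_mul, zero_mul]
    have e2 : qf (fun i j => ∏ x ∈ K, res K' (fun i j => c x * M i j) i j) w =
        (∏ x ∈ K, c x) * qf B w := by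
      simp only [qf, Finset.mul_sum]
      refine Finset.sum_congr rfl fun i _ => Finset.sum_congr rfl fun j _ => ?_
      by_cases hi : i ∈ K'
      · by_cases hj : j ∈ K'
        · have : (∏ x ∈ K, res K' (fun i j => c x * M i j) i j) = (∏ x ∈ K, c x) * B i j := by
            rw [← hBp, ← Finset.prod_mul_distrib]
            refine Finset.prod_congr rfl fun x _ => ?_
            simp only [res, if_pos (And.intro hi hj)]
          rw [this]; ring
        · rw [hw j hj, mul_zero, mul_zero, mul_zero]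
      · rw [hw i hi, zero_mul, zero_mul, zero_mul, zero_mul, mul_zero]
    rw [e1, e2] at h3
    linarith
  exact bf_sq_le (B := B) (D := D) hBs p1.1 p3 hkill hcw

/-- the angle is at most the sum of the cross entries -/
theorem l3_theta (hN : Psd N) (h1 : ∀ i, N i i = 1) (h0 : ∀ i j, 0 ≤ N i j) (m : ℕ)
    (K K' : Finset V) (z w : V → ℝ) (hz : ∀ i, i ∉ K → z i = 0) (hw : ∀ i, i ∉ K' → w i = 0) :
    0 ≤ (∑ x ∈ K, ∑ y ∈ K', N x y ^ m) *
        (qf (fun i j => N i j ^ (m * K'.card * K.card)) z +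
          qf (fun i j => N i j ^ (m * K'.card * K.card)) w) +
      2 * bf (fun i j => N i j ^ (m * K'.card * K.card)) z w := by
  have h := l3 hN h1 h0 m K K' z w hz hw
  set B : V → V → ℝ := fun i j => N i j ^ (m * K'.card * K.card) with hB
  have hBp : Psd B := psd_pow_nat hN _
  set θ : ℝ := ∑ x ∈ K, ∑ y ∈ K', N x y ^ m with hθ
  have hθ0 : 0 ≤ θ := Finset.sum_nonneg fun x _ => Finset.sum_nonneg fun y _ => pow_nonneg (h0 x y) m
  have a0 := hBp.2 z
  have b0 := hBp.2 w
  have hn1 : ∀ x y, (N x y ^ m) ^ 2 ≤ 1 := fun x y =>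
    pow_le_one₀ (pow_nonneg (h0 x y) m) (pow_le_one₀ (h0 x y) (entry_le_one hN h1 x y))
  -- `1 - c ≤ θ ^ 2`
  have hθ2 : (1 - ∏ x ∈ K, ∏ y ∈ K', (1 - (N x y ^ m) ^ 2)) ≤ θ ^ 2 := by
    have hx : ∀ x, 0 ≤ ∏ y ∈ K', (1 - (N x y ^ m) ^ 2) ∧ ∏ y ∈ K', (1 - (N x y ^ m) ^ 2) ≤ 1 ∧
        1 - ∑ y ∈ K', (N x y ^ m) ^ 2 ≤ ∏ y ∈ K', (1 - (N x y ^ m) ^ 2) := fun x =>
      one_sub_sum_le_prod K' (fun y => (N x y ^ m) ^ 2) (fun y _ => sq_nonneg _)
        (fun y _ => hn1 x y)
    have h2 := (one_sub_sum_le_prod K (fun x => 1 - ∏ y ∈ K', (1 - (N x y ^ m) ^ 2))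
      (fun x _ => by linarith [(hx x).2.1]) (fun x _ => by linarith [(hx x).1])).2.2
    have e : (∏ x ∈ K, (1 - (1 - ∏ y ∈ K', (1 - (N x y ^ m) ^ 2)))) =
        ∏ x ∈ K, ∏ y ∈ K', (1 - (N x y ^ m) ^ 2) :=
      Finset.prod_congr rfl fun x _ => by ring
    rw [e] at h2
    have h3 : ∑ x ∈ K, (1 - ∏ y ∈ K', (1 - (N x y ^ m) ^ 2)) ≤
        ∑ x ∈ K, ∑ y ∈ K', (N x y ^ m) ^ 2 :=
      Finset.sum_le_sum fun x _ => by linarith [(hx x).2.2]
    have h4 : ∑ x ∈ K, ∑ y ∈ K', (N x y ^ m) ^ 2 ≤ ∑ x ∈ K, ∑ y ∈ K', θ * N x y ^ m := by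
      refine Finset.sum_le_sum fun x hx' => Finset.sum_le_sum fun y hy' => ?_
      rw [sq]
      refine mul_le_mul_of_nonneg_right ?_ (pow_nonneg (h0 x y) m)
      calc N x y ^ m ≤ ∑ y ∈ K', N x y ^ m :=
            Finset.single_le_sum (f := fun y => N x y ^ m)
              (fun y _ => pow_nonneg (h0 x y) m) hy'
        _ ≤ θ := Finset.single_le_sum (f := fun x => ∑ y ∈ K', N x y ^ m)
              (fun x _ => Finset.sum_nonneg fun y _ => pow_nonneg (h0 x y) m) hx'
    have h5 : ∑ x ∈ K, ∑ y ∈ K', θ * N x y ^ m = θ ^ 2 := by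
      simp only [← Finset.mul_sum]
      rw [sq, hθ]
    linarith
  have hb : bf B z w ^ 2 ≤ θ ^ 2 * (qf B z * qf B w) := by
    refine h.trans ?_
    have := mul_nonneg (mul_nonneg a0 b0) (sub_nonneg.2 hθ2)
    nlinarith
  have habs : |2 * bf B z w| ≤ |θ * (qf B z + qf B w)| := by
    rw [← sq_le_sq]
    nlinarith [mul_nonneg (sq_nonneg θ) (sq_nonneg (qf B z - qf B w))]
  rw [abs_of_nonneg (mul_nonneg hθ0 (add_nonneg a0 b0))] at habs
  linarith [(abs_le.1 habs).1]

end Pool.Agent.Helper11.CE
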