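import Pool.Agent.Helper11.CE.Pair

/-!
# Two small clusters in a high real Schur power
-/

open Finset

namespace Pool.Agent.Helper11.CE

open Pool.Agent.Helper71.CE

variable {V : Type*} [Fintype V] [DecidableEq V]

/-- indicator -/
def ind (K : Finset V) : V → ℝ := fun i => if i ∈ K then 1 else 0

omit [Fintype V] in
theorem rst_eq_ind (K : Finset V) (v : V → ℝ) (i : V) : rst K v i = ind K i * v i := by
  simp only [rst, ind]
  by_cases h : i ∈ K <;> simp [h]

/-- the coefficient matrix of two blocks -/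
def coef (θ : ℝ) (K K' : Finset V) : V → V → ℝ := fun i j =>
  θ * (ind K i * ind K j + ind K' i * ind K' j) + (ind K i * ind K' j + ind K' i * ind K j)

theorem qf_coef {B : V → V → ℝ} (hs : ∀ i j, B i j = B j i) (θ : ℝ) (K K' : Finset V)
    (v : V → ℝ) : qf (fun i j => coef θ K K' i j * B i j) v =
      θ * (qf B (rst K v) + qf B (rst K' v)) + 2 * bf B (rst K v) (rst K' v) := by
  have h : qf (fun i j => coef θ K K' i j * B i j) v =
      θ * (qf B (rst K v) + qf B (rst K' v)) + (bf B (rst K v) (rst K' v) +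
        bf B (rst K' v) (rst K v)) := by
    simp only [qf, bf, rst_eq_ind, coef, Finset.mul_sum, ← Finset.sum_add_distrib]
    refine Finset.sum_congr rfl fun i _ => Finset.sum_congr rfl fun j _ => by ring
  rw [h, bf_symm hs (rst K' v)]; ring

theorem pow_mul_pw {a : ℝ} (ha : 0 ≤ a) (T : ℕ) (s : ℝ) : a ^ T * pw s a = pw (T + s) a := by
  rcases ha.eq_or_lt with h | h
  · rw [← h, pw_zero, pw_zero, mul_zero]
  · rw [pw_of_pos h, pw_of_pos h, Real.rpow_add h, Real.rpow_natCast]

theorem coef_zero {θ : ℝ} {K K' : Finset V} {i j : V} (h : ¬ (i ∈ K ∪ K' ∧ j ∈ K ∪ K')) :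
    coef θ K K' i j = 0 := by
  simp only [Finset.mem_union] at h
  simp only [coef, ind]
  by_cases h1 : i ∈ K
  · have h3 : j ∉ K := fun h' => h ⟨Or.inl h1, Or.inl h'⟩
    have h4 : j ∉ K' := fun h' => h ⟨Or.inl h1, Or.inr h'⟩
    simp [h3, h4]
  · by_cases h2 : i ∈ K'
    · have h3 : j ∉ K := fun h' => h ⟨Or.inr h2, Or.inl h'⟩
      have h4 : j ∉ K' := fun h' => h ⟨Or.inr h2, Or.inr h'⟩
      simp [h3, h4]
    · simp [h1, h2]

variable {N : V → V → ℝ}

theorem pair (hN : Psd N) (h1 : ∀ i, N i i = 1) (h0 : ∀ i j, 0 ≤ N i j) (m : ℕ)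
    (K K' : Finset V) (hK : K.Nonempty) (hK' : K'.Nonempty) {t : ℝ}
    (ht : ((m * K'.card * K.card : ℕ) : ℝ) + (K.card + K'.card) - 2 ≤ t) (y : V → ℝ) :
    0 ≤ (∑ x ∈ K, ∑ y ∈ K', N x y ^ m) *
        (qf (hpow N t) (rst K y) + qf (hpow N t) (rst K' y)) +
      2 * bf (hpow N t) (rst K y) (rst K' y) := by
  set T : ℕ := m * K'.card * K.card with hT
  set θ : ℝ := ∑ x ∈ K, ∑ y ∈ K', N x y ^ m with hθ
  have hp : (1 : ℝ) ≤ K.card := by exact_mod_cast hK.card_pos
  have hq : (1 : ℝ) ≤ K'.card := by exact_mod_cast hK'.card_pos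
  have hs0 : 0 ≤ t - T := by linarith
  have hU : (((K ∪ K').card : ℕ) : ℝ) - 2 ≤ t - T := by
    have : (((K ∪ K').card : ℕ) : ℝ) ≤ K.card + K'.card := by
      exact_mod_cast Finset.card_union_le K K'
    linarith
  have hP := psd_res_hpow hN h0 (K ∪ K') hs0 hU
  have hBs : ∀ i j, N i j ^ T = N j i ^ T := fun i j => by rw [hN.1 i j]
  have hE : Psd (fun i j => coef θ K K' i j * (N i j ^ T)) := by
    refine ⟨fun i j => ?_, fun v => ?_⟩
    · show coef θ K K' i j * (N i j ^ T) = coef θ K K' j i * (N j i ^ T)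
      rw [hBs i j]
      simp only [coef]
      ring
    · rw [qf_coef (B := fun i j => N i j ^ T) hBs]
      exact l3_theta hN h1 h0 m K K' _ _ (rst_supp K v) (rst_supp K' v)
  have hH := (hE.hadamard hP).2 y
  have e : (fun i j => coef θ K K' i j * N i j ^ T * res (K ∪ K') (hpow N (t - T)) i j) =
      fun i j => coef θ K K' i j * hpow N t i j := by
    funext i j
    by_cases h : i ∈ K ∪ K' ∧ j ∈ K ∪ K'
    · simp only [res, if_pos h, hpow]
      rw [mul_assoc, pow_mul_pw (h0 i j)]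
      congr 2
      ring
    · rw [coef_zero h, zero_mul, zero_mul, zero_mul]
  rw [e, qf_coef (hpow_symm hN t)] at hH
  exact hH

end Pool.Agent.Helper11.CE
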